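import Pool.Agent.Q54.EM.Def
import Pool.Agent.W593.IR.Stm2

/-!
# Project XM: the EXACT Erdős matching conjecture for large `n`, away from the critical density

Input: the i.i.d. inequality (project EM, `Q54.EM.t_ALL`). Output: for every `k ≥ 3` and `ε > 0` there is
`n0` such that for all `n ≥ n0` and all `s` with `k (s+1) ≤ n` and `|s - c n| ≥ ε n` (`c = c(k)` the critical
density) the Erdős matching conjecture holds exactly.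

Every `S_X : Prop` is a statement; the docstring gives its proof. `EE`, `mu` are in `Q54.EM.Def`; `Unif`,
`Mtch`, `HasM`, `dg`, `S_SAS`, `S_DI1`, `S_BDE`, `S_EXT`, `S_PMU` in `W890.SF.Stm`; `NG`, `mv`, `IB`,
`S_MINC`, `S_FAC` in `W593.IR.Stm`, `Stm2`.
-/

set_option autoImplicit false

namespace Pool.Agent.Q113.XM

open Finset Pool.Agent.W890.SF Pool.Agent.W593.IR Pool.Agent.Q54.EM

/-- a finite law with nonnegative weights -/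
structure Wl {ι : Type} [Fintype ι] (p y : ι → ℝ) : Prop where
  p0 : ∀ i, 0 ≤ p i
  p1 : ∑ i, p i = 1
  y0 : ∀ i, 0 ≤ y i

/-- `P(S_j ≥ t)` -/
noncomputable def UP {ι : Type} [Fintype ι] (p y : ι → ℝ) (j : ℕ) (t : ℝ) : ℝ :=
  EE p y j (fun s => if t ≤ s then 1 else 0)

/-- the i.i.d. inequality, weighted form: mean at most `x ≤ 1/k` gives `P(S_k ≥ 1) ≤ mv k x` -/
def LMW (k : ℕ) : Prop := ∀ (ι : Type) [Fintype ι] (p y : ι → ℝ) (x : ℝ), Wl p y → mu p y ≤ x → 0 ≤ x →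
  (k : ℝ) * x ≤ 1 → UP p y k 1 ≤ mv k x

/-- `c` is the critical density -/
def Crt (k : ℕ) (c : ℝ) : Prop := 0 < c ∧ (k : ℝ) * c < 1 ∧ ((k : ℝ) * c) ^ k + (1 - c) ^ k = 1

/-! ## Part A: laws -/

/-- LMW. If `x = 0` then `p i * y i = 0` for all `i` and the sum is `0 < 1` almost surely; if `k x = 1` then
`mv k x ≥ (k x)^k = 1`. Let `0 < x < 1/k`. For a natural number `M` let `q i = ⌊p i * M⌋`, `∑ q i ≤ M`, and
`V = (Σ i, Fin (q i)) ⊕ Fin (M - ∑ q i)`, `|V| = M`, `y'(i, j) = y i`, `y' = 0` on the second part. Let `F` be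
the set of the `k`-subsets `e` of `V` with `1 ≤ ∑_{v ∈ e} y' v`. `S_MINC` gives `y''` with
`∑ y'' ≤ ∑ y' ≤ M mu p y ≤ M x` and support at most `k ∑ y''`, `1 ≤ ∑_{v ∈ e} y'' v` on `F`. Apply `IB k x`
to `y''` with `s = ⌈k x M⌉` (for `M` large): `NG y'' k ≤ M^k (mv k x + ε)`. `S_FAC`:
`F.card * k! ≤ NG y'' k`. The number of injective tuples `f : Fin k → V` with `1 ≤ ∑ y'(f i)` is
`F.card * k!` and it is at least `∑_{v : Fin k → ι} (∏ q (v j)) 1[1 ≤ ∑ y (v j)] - k^2 M^{k-1}` (tuples in the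
first part; non-injective tuples are at most `k^2 M^{k-1}`). Divide by `M^k` and let `M → ∞`
(`q i / M → p i`), then `ε → 0`. (`EE p y k f = ∑_v (∏ p (v i)) f (∑ y (v i))`: induction, or `Q54.EM.S_TUP`
proved in `Pool.Agent.Q257.EM`.) -/
def S_LMW : Prop := ∀ k : ℕ, 2 ≤ k → (∀ x : ℝ, 0 < x → (k : ℝ) * x < 1 → IB k x) → S_MINC → S_FAC → LMW k

/-- PRT (perturbation): apply `LMW` to the law on `Option ι` with weights `none ↦ ε`, `some i ↦ (1-ε) p i` and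
values `none ↦ z`, `some i ↦ y i`, whose mean is `(1-ε) mu p y + ε z ≤ x`. By induction on `n`,
`EE (option law) n f = ∑_{j ≤ n} C(n,j) ε^{n-j} (1-ε)^j EE p y j (fun s => f (s + (n-j) z))` (compare
`Q54.EM.EE_option` in `Q54/EM/Bridge.lean`); all terms are `≥ 0` for the indicator of `1 ≤ s`; keep the terms
`j = k` and `j = k - 1`. -/
def S_PRT : Prop := ∀ k : ℕ, 2 ≤ k → LMW k → ∀ (ι : Type) [Fintype ι] (p y : ι → ℝ) (z ε x : ℝ), Wl p y →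
  0 ≤ z → 0 ≤ ε → ε ≤ 1 → (1 - ε) * mu p y + ε * z ≤ x → 0 ≤ x → (k : ℝ) * x ≤ 1 →
  (1 - ε) ^ k * UP p y k 1 + k * ε * (1 - ε) ^ (k - 1) * UP p y (k - 1) (1 - z) ≤ mv k x

/-- SHI (shift). With `m0` = the mass of `{y ≤ g}` and `y'' = max (y - g) 0 / (1 - k g)`: if `1 ≤ ∑ y (v i)`
then `1 ≤ ∑ y'' (v i)`, so `UP p y k 1 ≤ UP p y'' k 1` (induction on `k` for
`EE p y k (1[t ≤ s]) ≤ EE p y'' k (1[(t - k g)/(1 - k0 g) ≤ s])`, or the tuple formula), the mean of `y''` is at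
most `(x - g (1 - m0))/(1 - k g)`, which is `≥ 0` (as the mean is) and `≤ 1/k` by the last hypothesis; apply
`LMW`. -/
def S_SHI : Prop := ∀ k : ℕ, 2 ≤ k → LMW k → ∀ (ι : Type) [Fintype ι] (p y : ι → ℝ) (g x : ℝ), Wl p y →
  0 ≤ g → (k : ℝ) * g < 1 → mu p y ≤ x →
  (k : ℝ) * x + k * g * (∑ i, if y i ≤ g then p i else 0) ≤ 1 →
  UP p y k 1 ≤ mv k ((x - g * (1 - ∑ i, if y i ≤ g then p i else 0)) / (1 - k * g))

/-- BRG (bridge): the uniform law on `V`. Compare `Q54.EM.EE_count` in `Q54/EM/Bridge.lean` (same induction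
with `t ≤ ∑ + a` in place of `∑ + a < 1`). -/
def S_BRG : Prop := ∀ (V : Type) [Fintype V] [Nonempty V] (y : V → ℝ), (∀ v, 0 ≤ y v) →
  Wl (fun _ : V => 1 / (Fintype.card V : ℝ)) y ∧
  mu (fun _ : V => 1 / (Fintype.card V : ℝ)) y = (∑ v, y v) / (Fintype.card V : ℝ) ∧
  ∀ (j : ℕ) (t : ℝ), UP (fun _ : V => 1 / (Fintype.card V : ℝ)) y j t * (Fintype.card V : ℝ) ^ j =
    (({f : Fin j → V | t ≤ ∑ i, y (f i)}.ncard : ℕ) : ℝ)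

/-- CRF: facts on the critical density. `h(x) = (k x)^k + (1-x)^k` is convex on `[0, 1/k]`, `h(0) = h(c) = 1`,
so `h ≤ 1` on `[0,c]` and `h ≥ 1` on `[c, 1/k]` (and beyond). For the last claim put `u = k c < 1`: by
`(1 - t)^k ≤ 1 - k t + (k(k-1)/2) t^2` (`0 ≤ t ≤ 1`), `u^k = 1 - (1-u/k)^k ≥ u - (k-1)/(2k) u^2 > u/2`. -/
def S_CRF : Prop := ∀ k : ℕ, 2 ≤ k → ∀ c : ℝ, Crt k c →
  (∀ x : ℝ, 0 ≤ x → x ≤ c → mv k x = 1 - (1 - x) ^ k) ∧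
  (∀ x : ℝ, c ≤ x → (k : ℝ) * x ≤ 1 → mv k x = ((k : ℝ) * x) ^ k) ∧
  1 < 2 * ((k : ℝ) * c) ^ (k - 1)

/-- CRU: the critical density exists and is unique (intermediate value theorem for `h(x) = (k x)^k + (1-x)^k - 1`
between a small `x` and `1/k`; strict convexity, or: `h(x)/x` is strictly increasing). -/
def S_CRU : Prop := ∀ k : ℕ, 2 ≤ k → ∃! c : ℝ, Crt k c

/-- CRB (crude bound in the clique range). Let `ε = min (e0, ξ/k, 1/2)`, `u = k x`. For `0 ≤ z ≤ 1` let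
`x' = (1-ε) x + ε z`; then `k x' ≤ 1 - ξ + ε k ≤ 1` and `x' ≥ x - ε ≥ c`, so `mv k x' = (k x')^k` (`CRF`) and
`(k x')^k ≤ ((1-ε) u)^k + k (ε k z)` (as `a^k - b^k ≤ k (a-b)` for `0 ≤ b ≤ a ≤ 1`). `PRT` gives
`k ε (1-ε)^(k-1) UP (k-1) (1-z) ≤ k (ε k z) + (1-ε)^k η`. -/
def S_CRB : Prop := ∀ k : ℕ, 2 ≤ k → LMW k → ∀ c : ℝ, Crt k c → ∀ e0 ξ : ℝ, 0 < e0 → 0 < ξ →
  ∃ C : ℝ, 0 < C ∧ ∀ x : ℝ, c + e0 ≤ x → (k : ℝ) * x ≤ 1 - ξ →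
  ∀ (ι : Type) [Fintype ι] (p y : ι → ℝ) (η z : ℝ), Wl p y → mu p y ≤ x → 0 ≤ η →
    ((k : ℝ) * x) ^ k - η ≤ UP p y k 1 → 0 ≤ z → z ≤ 1 → UP p y (k - 1) (1 - z) ≤ C * (z + η)

/-- SPL (splitting at the level `g`): the conditional law `q` on `{y > g}`. A tuple with sum at least one
either has all entries in `{y > g}` (probability `P^k UP q y k 1`) or has an entry `i` with `y ≤ g`, and then
the sum of the others is at least `1 - g` (union bound over the `k` coordinates). Induction on `k` with a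
general threshold: `UP p y n t ≤ P^n UP q y n t + n UP p y (n-1) (t - g)`, using
`UP p y (n+1) t = ∑ p i UP p y n (t - y i)`. -/
def S_SPL : Prop := ∀ k : ℕ, 1 ≤ k → ∀ (ι : Type) [Fintype ι] (p y : ι → ℝ) (g P : ℝ), Wl p y →
  P = (∑ i, if g < y i then p i else 0) → 0 < P →
  Wl (fun i => if g < y i then p i / P else 0) y ∧
  P * mu (fun i => if g < y i then p i / P else 0) y ≤ mu p y ∧
  UP p y k 1 ≤ P ^ k * UP (fun i => if g < y i then p i / P else 0) y k 1 +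
    k * UP p y (k - 1) (1 - g)

/-- CNC (concentration). `E S_k = k mu ≥ UP ≥ 1 - d`; `|s - 1| ≤ (s - 1) + 2·1[s < 1]` for `s ≥ 0`, so
`E|S_k - 1| ≤ 3 d`. With `R = S_{k-1}`, `∑ p a p b |y a - y b| ≤ ∑ p a p b E(|y a + R - 1| + |y b + R - 1|)
≤ 6 d`, so `∑ p a |y a - mu| ≤ 6 d`, and `|mu - 1/k| ≤ d/k`. -/
def S_CNC : Prop := ∀ k : ℕ, 1 ≤ k → ∀ (ι : Type) [Fintype ι] (p y : ι → ℝ) (d : ℝ), Wl p y →
  (k : ℝ) * mu p y ≤ 1 + d → 1 - d ≤ UP p y k 1 → ∑ i, p i * |y i - 1 / (k : ℝ)| ≤ 7 * d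

/-- STC (stability, clique side). Notation `u = k x`, so `k (c+e0) ≤ u ≤ 1 - ξ`, `C` from `CRB`. Let
`π = k c / 2`, fix a small `ξ1 > 0` (depending on `γ, ξ, k, c`; in particular `ξ1 ≤ 1/2`), `R ≥ 2/(π ξ1)` a
natural number, and levels `g_0 = min(γ, e0/(2k), 1/(2k), ..)` (small), `g_{i+1} = κ g_i^k` with a small
constant `κ` (see (b)), `i < R`. The intervals `(g_{i+1}, g_i]` are disjoint, so for some `i < R` the mass of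
`{g_{i+1} < y ≤ g_i}` is at most `1/R`. Let `g = g_{i+1}`, `G = g_i`, `P` = mass of `{y > g}`, `q` = the
conditional law (`SPL`). By `SPL` and `CRB`, `P^k UP q y k 1 ≥ u^k - η'`, `η' = η + k C (g + η)` (in particular
`P ≥ u (1 - η'/u^k) ≥ π`).
(a) `q` has mean `≤ x/P`. (b) Suppose `u/P ≤ 1 - ξ1`. The `q`-mass `m0` of `{y ≤ G}` is at most
`1/(R P) ≤ ξ1/2`. `SHI` for `q`, level `G`, mean bound `x/P`: the new mean `x''` satisfies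
`k x'' ≤ u/P - k G (1 - m0 - u/P) ≤ u/P - k G ξ1/2` and `x'' ≥ x - G ≥ c` (as `G ≤ e0`; if `x'' < ...` use
monotonicity of `mv`), so by `CRF` `UP q y k 1 ≤ (u/P - k G ξ1/2)^k ≤ (u/P)^k - (k G ξ1/2)^k`; hence
`u^k - η' ≤ u^k - (π k G ξ1/2)^k`, which is false if `κ` and `η` are small. (c) So `P < u/(1-ξ1)` and
`UP q y k 1 ≥ (1-ξ1)^k (1 - η'/u^k) ≥ 1 - d` and `k mu q y ≤ u/P ≤ 1/(1 - η'/u^k) ≤ 1 + d` with `d` small
(`7 d ≤ γ^2`). `CNC` and Markov: the `q`-mass of `{|y - 1/k| > γ}` is at most `7 d/γ ≤ γ`; the set in the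
conclusion is contained in `{y > g}` and `p i = P q i ≤ q i` there. -/
def S_STC : Prop := ∀ k : ℕ, 2 ≤ k → LMW k → ∀ c : ℝ, Crt k c → ∀ e0 ξ γ : ℝ, 0 < e0 → 0 < ξ → 0 < γ →
  ∃ η : ℝ, 0 < η ∧ ∀ x : ℝ, c + e0 ≤ x → (k : ℝ) * x ≤ 1 - ξ →
  ∀ (ι : Type) [Fintype ι] (p y : ι → ℝ), Wl p y → mu p y ≤ x → ((k : ℝ) * x) ^ k - η ≤ UP p y k 1 →
    (∑ i, if γ < y i ∧ γ < |y i - 1 / (k : ℝ)| then p i else 0) ≤ γ

/-- STS (stability, star side). Let `p` be the uniform law on `V`, `m` its mean, `P_j(t) = UP p y j t`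
(`BRG`), so `P_k(1) ≥ 1 - (1-x)^k - η` (`CRF`). (a) `PRT` for `0 ≤ z ≤ 1`, `ε ≤ e0`, `x' = (1-ε) x + ε z ≤ c`:
since `(1-x')^k ≥ (1-ε)^k (1-x)^k + k ε (1-ε)^(k-1) (1-x)^(k-1) (1-z)` we get
`P_{k-1}(1-z) ≤ 1 + θ - (1-x)^(k-1) (1-z)`, `θ = (1-ε)^(-(k-1)) - 1 + η (1-ε)^(-(k-1))/(k ε)` (first choose
`ε`, then `η`; `θ` is as small as we like); for `z > 1` this is trivial. (b) `∑_v p (1 + θ - (1-x)^(k-1) (1 - y v)
- P_{k-1}(1 - y v)) ≤ θ + η` because `∑ p P_{k-1}(1 - y v) = P_k(1)` and `m ≤ x`; all terms are `≥ 0`.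
(c) For small `g > 0` the mass `m0` of `{y ≤ g}` is at least `μ0 = (1 - k c)/2`: otherwise `SHI` gives
`P_k(1) ≤ mv k x''`, `x'' ≤ x - g μ0`, i.e. `P_k(1) ≤ 1 - (1-x+g μ0)^k ≤ 1 - (1-x)^k - (g μ0)^k`, false if
`η < (g μ0)^k` (`mv` is monotone). (d) Hence some `v` with `y v ≤ g` has bracket at most `(θ+η)/μ0`, so
`P_{k-1}(1-g) ≥ P_{k-1}(1 - y v) ≥ 1 - (1-x)^(k-1) - (θ+η)/μ0`. (e) Apply `S_SAS` with `r = k-1` to
`y/(1-g)`, whose mean `m' = m/(1-g)` satisfies `m' ≤ c/(1-g) ≤ 1/k ≤ 20/(20 k - 1)`, a lower bound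
`m' ≥ m ≥ P_k(1)/k ≥ (1 - (1-x0)^k)/(2k)` (Markov), and `(1-x)^(k-1) ≤ (1-m')^(k-1) + 2 k g` as
`m' ≤ x/(1-g)`. With `γ' = γ/2` in `S_SAS` and `g ≤ γ/4` the conclusion for `y/(1-g)` gives the one for `y`. -/
def S_STS : Prop := ∀ k : ℕ, 3 ≤ k → LMW k → ∀ c : ℝ, Crt k c → ∀ x0 e0 γ : ℝ, 0 < x0 → 0 < e0 → 0 < γ →
  ∃ η : ℝ, 0 < η ∧ ∀ x : ℝ, x0 ≤ x → x ≤ c - e0 →
  ∀ (V : Type) [Fintype V] [Nonempty V] (y : V → ℝ), (∀ v, 0 ≤ y v) →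
    ∑ v, y v ≤ x * (Fintype.card V : ℝ) →
    (mv k x - η) * (Fintype.card V : ℝ) ^ k ≤ (NG y k : ℝ) →
    (({v : V | γ < y v ∧ y v < 1 - γ}.ncard : ℕ) : ℝ) ≤ γ * (Fintype.card V : ℝ)

/-! ## Part B: hypergraphs -/

/-- NEC (nearly extremal covers). Let `x1 = s/n`. From `S_DI1` with `c = c1/2 ∧ ..` (small), `τ`, `ε ≤ 1/2` small:
`y0 ≥ 0`, `∑ y0 ≤ (1+ε) s`, fewer than `c n^k` edges of `F` with `∑ y0 ≤ 1 - τ`. Put `y = y0/(1-τ)`,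
`x = (1+ε) s/((1-τ) n)`, so `0 ≤ x - s/n ≤ δ` for `τ`, `ε` small. Edges of `F` with `∑ y < 1` have
`∑ y0 < 1 - τ`. `S_FAC` for the edges of `F` with `1 ≤ ∑ y`: `NG y k ≥ k! (F.card - c n^k)`. And
`k! F.card ≥ (mv k x1 - η/3) n^k` for `n ≥ n0`: `k! (C(n,k) - C(n-s,k)) ≥ (1 - (1-x1)^k - η/3) n^k`
(`k! C(n,k) ≥ n^k - k^2 n^(k-1)`, `k! C(n-s,k) ≤ (n-s)^k`), `k! C(k(s+1)-1,k) ≥ (k s - ..)^k ≥
((k x1)^k - η/3) n^k`. Finally `mv k x ≤ mv k x1 + η/3` for `x - x1` small (Lipschitz; `x ≤ 1`). -/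
def S_NEC : Prop := ∀ k : ℕ, 2 ≤ k → ∀ x0 η δ c1 : ℝ, 0 < x0 → 0 < η → 0 < δ → 0 < c1 → ∃ n0 : ℕ,
  ∀ n : ℕ, n0 ≤ n → ∀ F : Finset (Finset (Fin n)), Unif k F → ∀ s : ℕ, x0 * n ≤ s → k * (s + 1) ≤ n →
    ¬ HasM F (s + 1) →
    max (n.choose k - (n - s).choose k) ((k * (s + 1) - 1).choose k) ≤ F.card →
    ∃ (y : Fin n → ℝ) (x : ℝ), (∀ v, 0 ≤ y v) ∧ ∑ v, y v ≤ x * n ∧ (s : ℝ) ≤ x * n ∧
      x * n ≤ s + δ * n ∧ (mv k x - η) * (n : ℝ) ^ k ≤ (NG y k : ℝ) ∧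
      ((F.filter (fun e => ∑ v ∈ e, y v < 1)).card : ℝ) ≤ c1 * (n : ℝ) ^ k

/-- DI3X: `S_DI3` with `2 s ≤ n` in place of `(40k+39) s ≤ 40 n` (same proof, `W735/SAM/DI3.lean`: only
`2 s ≤ n` is used). -/
def S_DI3X : Prop := ∀ k : ℕ, 2 ≤ k → ∀ x0 γ : ℝ, 0 < x0 → 0 < γ → ∃ γ' : ℝ, 0 < γ' ∧ ∃ n0 : ℕ,
  ∀ n : ℕ, n0 ≤ n → ∀ F : Finset (Finset (Fin n)), Unif k F → ∀ s : ℕ, x0 * n ≤ s →
    2 * s ≤ n → n.choose k - (n - s).choose k ≤ F.card →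
    ∀ S : Finset (Fin n), (S.card : ℝ) ≤ s + γ' * n →
      ((F.filter (fun e => Disjoint e S)).card : ℝ) ≤ γ' * (n : ℝ) ^ k →
    (s : ℝ) - γ * n ≤ ((univ.filter (fun v : Fin n =>
      (1 - γ) * (((n - 1).choose (k - 1) : ℕ) : ℝ) ≤ (dg F v : ℝ))).card : ℝ)

/-- DIS (star side, structure). `NEC` gives `y`, `x` with `x0 ≤ x ≤ c - e0/2`; `STS` (with `γ1` small): all but
`γ1 n` vertices have `y ≤ γ1` or `y ≥ 1 - γ1`. Let `S = {v : 1 - γ1 ≤ y v}`; `(1-γ1) |S| ≤ x n ≤ s + δ n`, so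
`|S| ≤ s + γ' n`. An edge of `F` disjoint from `S` has `∑ y < 1` (at most `c1 n^k`), or contains one of the
at most `γ1 n` exceptional vertices (at most `γ1 n · n^(k-1)`), or has all `y ≤ γ1` and `∑ y ≤ k γ1 < 1`
(already counted). `DI3X` (`2 s ≤ k s ≤ n`). -/
def S_DIS : Prop := ∀ k : ℕ, 3 ≤ k → LMW k → ∀ c : ℝ, Crt k c → ∀ x0 e0 γ : ℝ, 0 < x0 → 0 < e0 → 0 < γ →
  ∃ n0 : ℕ, ∀ n : ℕ, n0 ≤ n → ∀ F : Finset (Finset (Fin n)), Unif k F → ∀ s : ℕ, x0 * n ≤ s →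
    (s : ℝ) ≤ (c - e0) * n → k * (s + 1) ≤ n → ¬ HasM F (s + 1) →
    max (n.choose k - (n - s).choose k) ((k * (s + 1) - 1).choose k) ≤ F.card →
    (s : ℝ) - γ * n ≤ ((univ.filter (fun v : Fin n =>
      (1 - γ) * (((n - 1).choose (k - 1) : ℕ) : ℝ) ≤ (dg F v : ℝ))).card : ℝ)

/-- SFN (star side, exact): the final step of `W395.SAM.emc` (from `S_BDE`, `S_EXT`), with the structure as a
hypothesis. -/
def S_SFN : Prop := ∀ k : ℕ, 2 ≤ k → ∀ ξ : ℝ, 0 < ξ → ∃ γ : ℝ, 0 < γ ∧ ∃ n0 : ℕ,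
  ∀ n : ℕ, n0 ≤ n → ∀ F : Finset (Finset (Fin n)), Unif k F → ∀ s : ℕ,
    (k : ℝ) * (s + 1) ≤ (1 - ξ) * n →
    (s : ℝ) - γ * n ≤ ((univ.filter (fun v : Fin n =>
      (1 - γ) * (((n - 1).choose (k - 1) : ℕ) : ℝ) ≤ (dg F v : ℝ))).card : ℝ) →
    n.choose k - (n - s).choose k < F.card → HasM F (s + 1)

/-- STE (star side, all `s ≤ (c - e0) n`): `S_EMC` for small `s`, `DIS` and `SFN` for the others. -/
def S_STE : Prop := ∀ k : ℕ, 3 ≤ k → LMW k → ∀ c : ℝ, Crt k c → ∀ e0 : ℝ, 0 < e0 →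
  ∃ n0 : ℕ, ∀ n : ℕ, n0 ≤ n → ∀ F : Finset (Finset (Fin n)), Unif k F → ∀ s : ℕ,
    (s : ℝ) ≤ (c - e0) * n → k * (s + 1) ≤ n →
    max (n.choose k - (n - s).choose k) ((k * (s + 1) - 1).choose k) < F.card → HasM F (s + 1)

/-- the number of `(k-1)`-subsets of `T \ {v}` which do not form an edge of `F` with `v` -/
def ms {V : Type} [DecidableEq V] (k : ℕ) (F : Finset (Finset V)) (T : Finset V) (v : V) : ℕ :=
  (((T.erase v).powersetCard (k - 1)).filter (fun S => insert v S ∉ F)).card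

/-- TYC (clique side, structure from the cover). `U = {v : |y v - 1/k| ≤ γ'}`, `Q` the exceptional set of the
hypothesis, other vertices have `y ≤ γ'`. An edge of `F` disjoint from `Q`, with `1 ≤ ∑ y`, lies in `U`
(otherwise `∑ y ≤ γ' + (k-1)(1/k + γ') < 1`), so all but `2 γ' n^k` edges of `F` lie in `U`.
`|U| (1/k - γ') ≤ ∑ y ≤ s + γ' n` gives `|U| ≤ k s + γ'' n`, so the number of non-edges inside `U` is at most
`C(|U|,k) - C(k(s+1)-1,k) + 2 γ' n^k ≤ γ''' n^k` (if `|U| < k(s+1) - 1` the difference is `≤ 0`). Hence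
`∑_{v ∈ U} ms k F U v = k · (non-edges in U) ≤ k γ''' n^k`; let `T` be the set of the `v ∈ U` with
`ms k F U v ≤ γ n^(k-1)`; `|U \ T| ≤ k γ''' n/γ`, `ms k F T v ≤ ms k F U v`. Lower bound of `|U|`:
`C(|U|,k) ≥ C(k(s+1)-1,k) - 2 γ' n^k` gives `|U| ≥ k s - γ'''' n` (if `|U| < k s - t`, `t = γ'''' n`, then
`C(k(s+1)-1,k) - C(|U|,k) ≥ C(ks,k) - C(ks - t,k) ≥ C(t,k)`, too large). -/
def S_TYC : Prop := ∀ k : ℕ, 2 ≤ k → ∀ x0 γ : ℝ, 0 < x0 → 0 < γ → ∃ γ' : ℝ, 0 < γ' ∧ ∃ n0 : ℕ,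
  ∀ n : ℕ, n0 ≤ n → ∀ F : Finset (Finset (Fin n)), Unif k F → ∀ s : ℕ, x0 * n ≤ s → k * (s + 1) ≤ n →
    (k * (s + 1) - 1).choose k ≤ F.card →
    ∀ y : Fin n → ℝ, (∀ v, 0 ≤ y v) → ∑ v, y v ≤ s + γ' * n →
      (((univ.filter (fun v : Fin n => γ' < y v ∧ γ' < |y v - 1 / (k : ℝ)|)).card : ℕ) : ℝ) ≤ γ' * n →
      ((F.filter (fun e => ∑ v ∈ e, y v < 1)).card : ℝ) ≤ γ' * (n : ℝ) ^ k →
    ∃ T : Finset (Fin n), (k : ℝ) * s - γ * n ≤ (T.card : ℝ) ∧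
      ∀ v ∈ T, (ms k F T v : ℝ) ≤ γ * (n : ℝ) ^ (k - 1)

/-- CLS (clique side, structure): `NEC` with `δ` small (`k δ ≤ ξ/2`), `STC` for the uniform law on `Fin n`
(`BRG`; `NG y k` is the count with `t = 1`; `mv k x = (k x)^k` by `CRF`), `TYC`. -/
def S_CLS : Prop := ∀ k : ℕ, 2 ≤ k → LMW k → ∀ c : ℝ, Crt k c → ∀ e0 ξ γ : ℝ, 0 < e0 → 0 < ξ → 0 < γ →
  ∃ n0 : ℕ, ∀ n : ℕ, n0 ≤ n → ∀ F : Finset (Finset (Fin n)), Unif k F → ∀ s : ℕ,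
    (c + e0) * n ≤ (s : ℝ) → (k : ℝ) * s ≤ (1 - ξ) * n → k * (s + 1) ≤ n → ¬ HasM F (s + 1) →
    max (n.choose k - (n - s).choose k) ((k * (s + 1) - 1).choose k) ≤ F.card →
    ∃ T : Finset (Fin n), (k : ℝ) * s - γ * n ≤ (T.card : ℝ) ∧
      ∀ v ∈ T, (ms k F T v : ℝ) ≤ γ * (n : ℝ) ^ (k - 1)

/-- NCP (nearly complete): non-edges of `F` are at most `C(n,k) - C(k(s+1)-1,k) ≤ ξ' n^k`; `T` = the vertices
with `ms k F univ v ≤ γ n^(k-1)`; `∑_v ms k F univ v = k · (non-edges)`, so `|T| ≥ n - k ξ' n/γ ≥ k s - γ n`;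
`ms k F T v ≤ ms k F univ v`. -/
def S_NCP : Prop := ∀ k : ℕ, 2 ≤ k → ∀ γ : ℝ, 0 < γ → ∃ ξ : ℝ, 0 < ξ ∧ ∃ n0 : ℕ,
  ∀ n : ℕ, n0 ≤ n → ∀ F : Finset (Finset (Fin n)), Unif k F → ∀ s : ℕ, k * (s + 1) ≤ n →
    (1 - ξ) * n ≤ (k : ℝ) * s → (k * (s + 1) - 1).choose k ≤ F.card →
    ∃ T : Finset (Fin n), (k : ℝ) * s - γ * n ≤ (T.card : ℝ) ∧
      ∀ v ∈ T, (ms k F T v : ℝ) ≤ γ * (n : ℝ) ^ (k - 1)

/-- GRE (greedy). One vertex of `X` after the other: the number of edges at `v` which meet a given set of at most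
`k |X| + |Z| ≤ k δ n` other vertices is at most `k δ n · n^(k-2) < c n^(k-1)`; so there is an edge `e_v` of `F`
with `v ∈ e_v` which meets no other vertex of `X`, no vertex of `Z` and none of the previous edges. -/
def S_GRE : Prop := ∀ k : ℕ, 2 ≤ k → ∀ c : ℝ, 0 < c → ∃ δ : ℝ, 0 < δ ∧ ∃ n0 : ℕ,
  ∀ n : ℕ, n0 ≤ n → ∀ F : Finset (Finset (Fin n)), Unif k F → ∀ X Z : Finset (Fin n), Disjoint X Z →
    (∀ v ∈ X, c * (n : ℝ) ^ (k - 1) ≤ (dg F v : ℝ)) → (X.card : ℝ) + Z.card ≤ δ * n →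
    ∃ M ⊆ F, Mtch M ∧ M.card = X.card ∧ (∀ e ∈ M, Disjoint e Z) ∧ X ⊆ M.biUnion id

/-- PMN (perfect matchings in a nearly complete part). Transport `F ∩ C(T,k)` to `Fin (k q)` by a bijection and
apply `S_PMU` (every vertex has degree at least `C(N-1,k-1) - γ n^(k-1)`, `N = k q ≥ c n`, which exceeds
`C(N-1,k-1) - C(N-q,k-1)` for `γ` small and `n` large). -/
def S_PMN : Prop := ∀ k : ℕ, 3 ≤ k → ∀ c : ℝ, 0 < c → ∃ γ : ℝ, 0 < γ ∧ ∃ n0 : ℕ,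
  ∀ n : ℕ, n0 ≤ n → ∀ F : Finset (Finset (Fin n)), Unif k F → ∀ (T : Finset (Fin n)) (q : ℕ),
    T.card = k * q → c * n ≤ (T.card : ℝ) → (∀ v ∈ T, (ms k F T v : ℝ) ≤ γ * (n : ℝ) ^ (k - 1)) →
    ∃ M ⊆ F, Mtch M ∧ M.card = q ∧ ∀ e ∈ M, e ⊆ T

/-- HMT (matchings in `H` avoiding a small set `Z`). Let `X = (H \ T) \ Z`. If `q ≤ |X|` use `GRE` for `q`
vertices of `X`. Otherwise `GRE` for `X` (avoiding `Z`) gives `M1` with `|X|` edges, which use at most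
`(k-1) |X|` vertices of `T`; `T1 = T \ Z \ V(M1)` has at least `k (q - |X|)` elements and at least
`(c0 - δ - k δ) n`. Take `T2 ⊆ T1` with `|T2| = k q2`, `q2 = ⌊|T1|/k⌋ ≥ q - |X|`; `PMN` (with `c0/2`;
`ms` is monotone in `T`) gives `q2` disjoint edges in `T2`; keep `q - |X|` of them. -/
def S_HMT : Prop := ∀ k : ℕ, 3 ≤ k → ∀ c0 c : ℝ, 0 < c0 → 0 < c → ∃ δ : ℝ, 0 < δ ∧ ∃ n0 : ℕ,
  ∀ n : ℕ, n0 ≤ n → ∀ F : Finset (Finset (Fin n)), Unif k F → ∀ T H Z : Finset (Fin n), T ⊆ H →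
    c0 * n ≤ (T.card : ℝ) → (∀ v ∈ T, (ms k F T v : ℝ) ≤ δ * (n : ℝ) ^ (k - 1)) →
    (∀ v ∈ H, c * (n : ℝ) ^ (k - 1) ≤ (dg F v : ℝ)) → ((H \ T).card : ℝ) ≤ δ * n →
    (Z.card : ℝ) ≤ δ * n → ∀ q : ℕ, k * q ≤ (H \ Z).card →
    ∃ M ⊆ F, Mtch M ∧ M.card = q ∧ ∀ e ∈ M, Disjoint e Z

/-- CLQ (clique side, exact). Let `m = k (s+1) - 1`, `c2 > 0` small, `H = {v : c2 n^(k-1) ≤ dg F v}`; `T ⊆ H`.
(i) If `|H| ≥ k (s+1)`: let `H' ⊆ H` have exactly `k(s+1)` elements and contain as many elements of `T` as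
possible, `T' = T ∩ H'`; `HMT` with `Z = ∅`, `q = s+1`.
(ii) Otherwise let `a = m - |H| ≥ 0`, `a ≤ k + γ n`, `FL = {e ∈ F : ¬ e ⊆ H}`,
`B = {v : c2 n^(k-1) ≤ dg FL v} ⊆ H`, `b = |B|`.
Claim: if `FL` has a matching `M0` with `a + 1` edges then `F` has `s + 1` disjoint edges: `Z = V(M0)` has
`k(a+1)` elements, at least `a+1` of them outside `H`, so `|H \ Z| ≥ m - a - (k-1)(a+1) = k (s - a)`; `HMT` with
`q = s - a`. If `b ≥ a+1`, `GRE` (for `FL`, `X ⊆ B` of size `a+1`, `Z = ∅`) gives such `M0`. If `b ≤ a` and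
`F'' = {e ∈ FL : Disjoint e B}` has a matching `M2` with `a + 1 - b` edges, `GRE` for `X = B`, `Z = V(M2)` gives
`b` further edges of `FL`. Otherwise take a maximal matching `M'` of `F''`, `|M'| ≤ a - b`: every edge of `F''`
meets `V(M')`, which has at most `k (a-b)` elements, none in `B`, so `|F''| ≤ k (a-b) c2 n^(k-1)`. Then
`|F| ≤ b C(n-1,k-1) + C(m - a - b, k) + k (a-b) c2 n^(k-1)`, whereas
`|F| > C(m,k) ≥ C(m-a-b,k) + (a+b) D`, `D = C(m-a-b,k-1)`, and `(a+b) D = (a-b) D + 2 b D`,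
`2 D ≥ C(n-1,k-1)` (as `2 (k c)^(k-1) > 1`, `γ` small, `n` large) and `D ≥ k c2 n^(k-1)` (`c2` small): a
contradiction. -/
def S_CLQ : Prop := ∀ k : ℕ, 3 ≤ k → ∀ c : ℝ, 0 < c → 1 < 2 * ((k : ℝ) * c) ^ (k - 1) →
  ∃ γ : ℝ, 0 < γ ∧ ∃ n0 : ℕ,
  ∀ n : ℕ, n0 ≤ n → ∀ F : Finset (Finset (Fin n)), Unif k F → ∀ (s : ℕ) (T : Finset (Fin n)),
    c * n ≤ (s : ℝ) → k * (s + 1) ≤ n → (k : ℝ) * s - γ * n ≤ (T.card : ℝ) →
    (∀ v ∈ T, (ms k F T v : ℝ) ≤ γ * (n : ℝ) ^ (k - 1)) →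
    (k * (s + 1) - 1).choose k < F.card → HasM F (s + 1)

/-- MAIN -/
def S_XMC : Prop := ∀ k : ℕ, 3 ≤ k → LMW k → ∀ c : ℝ, Crt k c → ∀ ε : ℝ, 0 < ε → ∃ n0 : ℕ,
  ∀ n : ℕ, n0 ≤ n → ∀ s : ℕ, k * (s + 1) ≤ n → ε * n ≤ |(s : ℝ) - c * n| →
  ∀ F : Finset (Finset (Fin n)), Unif k F →
    max (n.choose k - (n - s).choose k) ((k * (s + 1) - 1).choose k) < F.card → HasM F (s + 1)

end Pool.Agent.Q113.XM
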