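import Pool.Agent.Q54.EM.Main
import Pool.Agent.W890.SF.All2
import Pool.Agent.W593.IR.All
import Pool.Agent.Q95.XM.CNC
import Pool.Agent.Q251.XM.SPL
import Pool.Agent.Q14.XM.STS
import Pool.Agent.Q150.XM.NEC
import Pool.Agent.Q176.XM.DIS
import Pool.Agent.Q150.XM.TYC
import Pool.Agent.Q79.XM.CLS
import Pool.Agent.Q111.XM.NCP
import Pool.Agent.Q162.XM.GRE
import Pool.Agent.Q176.XM.PMN
import Pool.Agent.Q14.XM.HMT
import Pool.Agent.Q224.XM.CLQ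
import Pool.Agent.Q224.XM.STC
import Pool.Agent.Q24.XM.LMW
import Pool.Agent.Q162.XM.PRT
import Pool.Agent.Q162.XM.SHI
import Pool.Agent.Q111.XM.BRG
import Pool.Agent.Q199.XM.CRF
import Pool.Agent.Q119.XM.CRU
import Pool.Agent.Q199.XM.CRB
import Pool.Agent.Q257.XM.SFN
import Pool.Agent.Q257.XM.DI3X
import Pool.Agent.Q257.XM.STE
import Pool.Agent.Q257.XM.XMC

/-!
# Project XM: all steps together
-/

set_option autoImplicit false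

namespace Pool.Agent.Q113.XM

open Finset Pool.Agent.W890.SF Pool.Agent.W593.IR

/-- the i.i.d. inequality for all finite laws, all `k ≥ 2` -/
theorem t_LMWk (k : ℕ) (h2 : 2 ≤ k) : LMW k :=
  Pool.Agent.Q24.XM.t_LMW k h2 (fun x hx hx1 => Pool.Agent.W205.K5.t_ALLIB k h2
    (Pool.Agent.Q54.EM.t_ALL k h2) x hx hx1) t_MINC t_FAC

theorem t_CNC : S_CNC := Pool.Agent.Q95.XM.t_CNC
theorem t_SPL : S_SPL := Pool.Agent.Q251.XM.t_SPL
theorem t_PRT : S_PRT := Pool.Agent.Q162.XM.t_PRT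
theorem t_SHI : S_SHI := Pool.Agent.Q162.XM.t_SHI
theorem t_BRG : S_BRG := Pool.Agent.Q111.XM.t_BRG
theorem t_CRF : S_CRF := Pool.Agent.Q199.XM.t_CRF
theorem t_CRU : S_CRU := Pool.Agent.Q119.XM.t_CRU
theorem t_CRB : S_CRB := Pool.Agent.Q199.XM.t_CRB t_CRF t_PRT
theorem t_STC : S_STC := Pool.Agent.Q224.XM.t_STC t_CRF t_CRB t_SPL t_CNC t_SHI
theorem t_STS : S_STS := Pool.Agent.Q14.XM.t_STS t_CRF t_PRT t_SHI t_BRG t_SAS
theorem t_NEC : S_NEC := Pool.Agent.Q150.XM.t_NEC t_DI1 t_FAC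
theorem t_DI3X : S_DI3X := Pool.Agent.Q257.XM.t_DI3X
theorem t_DIS : S_DIS := Pool.Agent.Q176.XM.t_DIS t_CRF t_STS t_NEC t_DI3X
theorem t_SFN : S_SFN := Pool.Agent.Q257.XM.t_SFN t_BDE t_EXT
theorem t_STE : S_STE := Pool.Agent.Q257.XM.t_STE t_EMC t_CRF t_DIS t_SFN
theorem t_TYC : S_TYC := Pool.Agent.Q150.XM.t_TYC
theorem t_CLS : S_CLS := Pool.Agent.Q79.XM.t_CLS t_CRF t_NEC t_STC t_BRG t_TYC
theorem t_NCP : S_NCP := Pool.Agent.Q111.XM.t_NCP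
theorem t_GRE : S_GRE := Pool.Agent.Q162.XM.t_GRE
theorem t_PMN : S_PMN := Pool.Agent.Q176.XM.t_PMN t_PMU
theorem t_HMT : S_HMT := Pool.Agent.Q14.XM.t_HMT t_GRE t_PMN
theorem t_CLQ : S_CLQ := Pool.Agent.Q224.XM.t_CLQ t_GRE t_HMT
theorem t_XMC : S_XMC := Pool.Agent.Q257.XM.t_XMC t_CRF t_STE t_CLQ t_NCP t_CLS

end Pool.Agent.Q113.XM
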